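import Mathlib

set_option autoImplicit false

namespace Pool.Agent.H.MP_a83c81_co

open Finset

def Bad {V : Type} (H : SimpleGraph V) (S T : Set V) : Set (V × V) :=
  {p | (p.1 ∈ S ∧ p.2 ∉ T ∧ p.2 ≠ p.1 ∧ ¬ H.Adj p.1 p.2) ∨ (p.1 ∈ T ∧ p.2 ∉ S ∧ H.Adj p.1 p.2)}

open Classical in
lemma ncard_eq_sum {W : Type} [Fintype W] (A : Set W) :
    (A.ncard : ℤ) = ∑ w, if w ∈ A then (1 : ℤ) else 0 := by
  rw [Set.ncard_eq_toFinset_card' A, Finset.sum_boole]
  congr 2
  ext w; simp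

open Classical in
lemma bad_card {V : Type} [Fintype V] (H : SimpleGraph V) (S T : Set V)
    (hd : ∀ v, v ∈ S → v ∉ T) :
    ((Bad H S T).ncard : ℤ) = (∑ u, ∑ v, if u ∈ S ∧ v ∉ T ∧ v ≠ u then (1 : ℤ) else 0)
      - ∑ u, (if u ∈ S then (1 : ℤ) else 0) * (H.neighborSet u).ncard
      + ∑ u, (if u ∈ T then (1 : ℤ) else 0) * (H.neighborSet u).ncard := by
  have key : ∀ u v, (if (u, v) ∈ Bad H S T then (1 : ℤ) else 0)
      = (if u ∈ S ∧ v ∉ T ∧ v ≠ u then (1 : ℤ) else 0)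
        - (if u ∈ S then (1 : ℤ) else 0) * (if v ∈ H.neighborSet u then 1 else 0)
        + (if u ∈ T then (1 : ℤ) else 0) * (if v ∈ H.neighborSet u then 1 else 0)
        + ((if u ∈ S ∧ v ∈ T ∧ H.Adj u v then (1 : ℤ) else 0)
          - (if v ∈ S ∧ u ∈ T ∧ H.Adj v u then (1 : ℤ) else 0)) := by
    intro u v
    have h1 := hd u
    have h2 := hd v
    have h3 : H.Adj v u ↔ H.Adj u v := H.adj_comm v u
    have h4 : H.Adj u v → v ≠ u := fun h => h.ne'
    by_cases a : u ∈ S <;> by_cases b : u ∈ T <;> by_cases c : v ∈ S <;> by_cases d : v ∈ T <;>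
      by_cases e : H.Adj u v <;> by_cases f : v = u <;> simp_all [Bad]
  rw [ncard_eq_sum, Fintype.sum_prod_type]
  simp only [key, Finset.sum_add_distrib, Finset.sum_sub_distrib, ncard_eq_sum, Finset.mul_sum]
  have := Finset.sum_comm (s := (univ : Finset V)) (t := (univ : Finset V))
    (f := fun u v => if u ∈ S ∧ v ∈ T ∧ H.Adj u v then (1 : ℤ) else 0)
  rw [this]; ring_nf

lemma bad_inv {V : Type} [Fintype V] (H H' : SimpleGraph V) (S T : Set V)
    (hd : ∀ v, v ∈ S → v ∉ T)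
    (h : ∀ v, (H'.neighborSet v).ncard = (H.neighborSet v).ncard) :
    (Bad H' S T).ncard = (Bad H S T).ncard := by
  have h1 := bad_card H S T hd
  have h2 := bad_card H' S T hd
  simp only [h] at h2
  exact_mod_cast h2.trans h1.symm

def M (N r c : ℕ) : Prop :=
  (r < 8 ∧ c < 8 ∧ (c + 1 = r ∨ r + 1 = c ∨ (r = 7 ∧ c = 0))) ∨
  (N ≤ r ∧ N ≤ c ∧ (c + 1 = r ∨ r + 1 = c ∨ (r = N + 7 ∧ c = N))) ∨
  (¬ (r < 8 ∧ c < 8) ∧ ¬ (N ≤ r ∧ N ≤ c) ∧ (c = r + 1 ∨ c + 1 < r))

def M' (N r c : ℕ) : Prop :=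
  (r < 8 ∧ c < 8 ∧ (c + 1 = r ∨ r + 1 = c ∨ (r = 7 ∧ c = 0))) ∨
  (N ≤ r ∧ N ≤ c ∧ (c + 1 = r ∨ r + 1 = c ∨ (r = N + 7 ∧ c = N))) ∨
  (¬ (r < 8 ∧ c < 8) ∧ ¬ (N ≤ r ∧ N ≤ c) ∧ ((r = 7 ∧ c = N) ∨ c < r))

def R (m : ℕ → ℕ → Prop) (x y : ℕ) : Prop :=
  x ≠ y ∧ ((x % 2 = 1 ∧ y % 2 = 1) ∨ (x % 2 = 1 ∧ y % 2 = 0 ∧ m x y) ∨
    (x % 2 = 0 ∧ y % 2 = 1 ∧ m y x))

instance (N r c : ℕ) : Decidable (M N r c) := by unfold M; infer_instance
instance (N x y : ℕ) : Decidable (R (M N) x y) := by unfold R; infer_instance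

def gr (n : ℕ) (m : ℕ → ℕ → Prop) : SimpleGraph (Fin n) where
  Adj x y := R m x y
  symm := ⟨by intro x y h; unfold R at *; tauto⟩
  loopless := ⟨by intro x h; exact h.1 rfl⟩

def G0 : SimpleGraph (Fin 16) := gr 16 (M 8)

instance : DecidableRel G0.Adj := fun x y => inferInstanceAs (Decidable (R (M 8) x y))

def nxt (x : Fin 16) : Fin 16 :=
  if x.val % 2 = 0 then ⟨((x.val + 5) % 8 + 8 * (x.val / 8)) % 16, Nat.mod_lt _ (by norm_num)⟩
  else ⟨(x.val + 1) % 16, Nat.mod_lt _ (by norm_num)⟩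

lemma F1 : ∀ x : Fin 16, ∃ y z : Fin 16, y ≠ z ∧ y.val % 2 ≠ x.val % 2 ∧ z.val % 2 ≠ x.val % 2 ∧
    G0.Adj x y ∧ G0.Adj x z := by decide +kernel
lemma F2 : ∀ x : Fin 16, ∃ y z : Fin 16, y ≠ z ∧ y.val % 2 ≠ x.val % 2 ∧ z.val % 2 ≠ x.val % 2 ∧
    ¬ G0.Adj x y ∧ ¬ G0.Adj x z := by decide +kernel
lemma F3 : ∀ x : Fin 16, (nxt x).val % 2 ≠ x.val % 2 ∧ (G0.Adj x (nxt x) ↔ x.val % 2 = 1) := by
  decide +kernel
lemma F4 : ∀ x y : Fin 16, ∃ k < 16, nxt^[k] x = y := by decide +kernel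
lemma F5 : ∀ x y : Fin 16, x.val % 2 = y.val % 2 → x ≠ y → (G0.Adj x y ↔ x.val % 2 = 1) := by
  decide +kernel

lemma hb0 (N t x y : ℕ) (hN : N % 2 = 0) (ht : t = 0 ∨ (8 ≤ t ∧ t ≤ N)) (l1 : x < N + 8) (l2 : y < N + 8)
   (h : ((x % 2 = 1 ∧ t ≤ x) ∧ ¬ (y % 2 = 0 ∧ t ≤ y) ∧ y ≠ x ∧ ¬ R (M N) x y) ∨ ((x % 2 = 0 ∧ t ≤ x) ∧ ¬ (y % 2 = 1 ∧ t ≤ y) ∧ R (M N) x y)) : x = t ∧ y + 1 = t := by
  rcases h with ⟨⟨h1, h2⟩, h3, h4, h5⟩ | ⟨⟨h1, h2⟩, h3, h5⟩
  · have hy : y % 2 = 0 := by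
      by_contra hc
      exact h5 ⟨h4.symm, Or.inl ⟨h1, by omega⟩⟩
    have hm : ¬ M N x y := fun hm => h5 ⟨h4.symm, Or.inr (Or.inl ⟨h1, hy, hm⟩)⟩
    have h6 : y < t := by omega
    have h7 : ¬ (y + 1 < x) := fun h => hm (Or.inr (Or.inr ⟨by omega, by omega, Or.inr h⟩))
    omega
  · obtain ⟨_, h | h | ⟨_, hy, hm⟩⟩ := h5
    · omega
    · omega
    have h6 : y < t := by omega
    rcases hm with hm | hm | hm <;> omega

lemma core {V : Type} [Fintype V] (N a : ℕ) (hN : N % 2 = 0) (ha : 8 ≤ a) (haN : a < N)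
    (K K' : SimpleGraph V) (h : ∀ v, (K'.neighborSet v).ncard = (K.neighborSet v).ncard)
    (f : V → ℕ) (hf : Function.Injective f) (hlt : ∀ v, f v < N + 8) (hfa : ∀ v, f v ≠ a)
    (hK : ∀ u v, K.Adj u v ↔ R (M N) (f u) (f v)) (φ : G0 ↪g K') : False := by
  let S : ℕ → Set V := fun t => {v | f v % 2 = 1 ∧ t ≤ f v}
  let T : ℕ → Set V := fun t => {v | f v % 2 = 0 ∧ t ≤ f v}
  have hd : ∀ t v, v ∈ S t → v ∉ T t := by
    intro t v h1 h2
    simp only [S, T, Set.mem_ofPred_eq] at h1 h2; omega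
  have hb : ∀ t, (t = 0 ∨ (8 ≤ t ∧ t ≤ N)) → ∀ p ∈ Bad K (S t) (T t),
      f p.1 = t ∧ f p.2 + 1 = t := by
    intro t ht p hp
    have hne : p.2 ≠ p.1 ↔ f p.2 ≠ f p.1 := hf.ne_iff.symm
    simp only [Bad, S, T, Set.mem_ofPred_eq, hK, hne] at hp
    exact hb0 N t _ _ hN ht (hlt _) (hlt _) hp
  have hempty : ∀ t, (t = 0 ∨ t = a) → ∀ p, p ∉ Bad K' (S t) (T t) := by
    intro t ht
    have e : Bad K (S t) (T t) = ∅ := by
      ext p
      simp only [Set.mem_empty_iff_false, iff_false]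
      intro hp
      have := hb t (by omega) p hp
      have := hfa p.1
      omega
    have := bad_inv K K' (S t) (T t) (hd t) h
    rw [e, Set.ncard_empty, Set.ncard_eq_zero] at this
    intro p; rw [this]; simp
  have hone : ∀ t, 8 ≤ t → t ≤ N → ∀ p ∈ Bad K' (S t) (T t), ∀ q ∈ Bad K' (S t) (T t), p = q := by
    intro t h1 h2
    have e : (Bad K (S t) (T t)).ncard ≤ 1 := by
      rw [Set.ncard_le_one]
      intro p hp q hq
      have a1 := hb t (by omega) p hp
      have a2 := hb t (by omega) q hq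
      exact Prod.ext (hf (by omega)) (hf (by omega))
    rw [← bad_inv K K' (S t) (T t) (hd t) h, Set.ncard_le_one] at e
    exact e
  let g : Fin 16 → ℕ := fun x => f (φ x)
  have hg : Function.Injective g := hf.comp φ.injective
  have hadj : ∀ x y, K'.Adj (φ x) (φ y) ↔ G0.Adj x y := fun x y => φ.map_adj_iff
  have hoo : ∀ x y, x ≠ y → g x % 2 = 1 → g y % 2 = 1 → G0.Adj x y := by
    intro x y hxy hx hy
    by_contra hc
    apply hempty 0 (Or.inl rfl) (φ x, φ y)
    left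
    refine ⟨⟨hx, Nat.zero_le _⟩, ?_, ?_, ?_⟩
    · intro h2; have : g y % 2 = 0 := h2.1; omega
    · exact fun e => hxy (φ.injective e).symm
    · rwa [hadj]
  have hee : ∀ x y, g x % 2 = 0 → g y % 2 = 0 → ¬ G0.Adj x y := by
    intro x y hx hy hc
    apply hempty 0 (Or.inl rfl) (φ x, φ y)
    right
    refine ⟨⟨hx, Nat.zero_le _⟩, ?_, ?_⟩
    · intro h2; have : g y % 2 = 1 := h2.1; omega
    · rwa [hadj]
  have hpar : ∀ x, g x % 2 = x.val % 2 := by
    intro x
    rcases Nat.mod_two_eq_zero_or_one x.val with hx | hx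
    · by_contra hc
      obtain ⟨y, z, hyz, hy, hz, ay, az⟩ := F2 x
      have gy : g y % 2 = 0 := by
        by_contra h2
        exact ay (hoo x y (by rintro rfl; exact hy rfl) (by omega) (by omega))
      have gz : g z % 2 = 0 := by
        by_contra h2
        exact az (hoo x z (by rintro rfl; exact hz rfl) (by omega) (by omega))
      exact hee y z gy gz ((F5 y z (by omega) hyz).2 (by omega))
    · by_contra hc
      obtain ⟨y, z, hyz, hy, hz, ay, az⟩ := F1 x
      have gy : g y % 2 = 1 := by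
        by_contra h2
        exact hee x y (by omega) (by omega) ay
      have gz : g z % 2 = 1 := by
        by_contra h2
        exact hee x z (by omega) (by omega) az
      have := (F5 y z (by omega) hyz).1 (hoo y z hyz gy gz)
      omega
  -- membership of pairs in the defect set
  have hmem : ∀ t x y, y.val % 2 ≠ x.val % 2 → t ≤ g x → g y < t →
      (G0.Adj x y ↔ x.val % 2 = 0) → (φ x, φ y) ∈ Bad K' (S t) (T t) := by
    intro t x y hp hx hy hA
    have px := hpar x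
    have py := hpar y
    rcases Nat.mod_two_eq_zero_or_one x.val with h0 | h0
    · right
      refine ⟨⟨(by omega : g x % 2 = 0), hx⟩, ?_, ?_⟩
      · intro h2; have : t ≤ g y := h2.2; omega
      · rw [hadj]; exact hA.2 h0
    · left
      refine ⟨⟨(by omega : g x % 2 = 1), hx⟩, ?_, ?_, ?_⟩
      · intro h2; have : t ≤ g y := h2.2; omega
      · intro e; have := φ.injective e; subst this; exact hp rfl
      · rw [hadj, hA]; omega
  have hcl : ∀ x, g x < a → g (nxt x) < a := by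
    intro x hx
    by_contra hc
    obtain ⟨p1, p2⟩ := F3 x
    apply hempty a (Or.inr rfl) (φ (nxt x), φ x)
    apply hmem a (nxt x) x (Ne.symm p1) (by omega) hx
    rw [G0.adj_comm, p2]; omega
  have hit : ∀ k x, g x < a → g (nxt^[k] x) < a := by
    intro k
    induction k with
    | zero => intro x hx; exact hx
    | succ k ih => intro x hx; rw [Function.iterate_succ_apply]; exact ih _ (hcl x hx)
  have hcard : ∀ b : ℕ, ¬ ∀ x, b ≤ g x ∧ g x < b + 8 := by
    intro b hb'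
    have : (univ : Finset (Fin 16)).card ≤ (Finset.Ico b (b + 8)).card :=
      Finset.card_le_card_of_injOn g (fun x _ => by simpa using hb' x) hg.injOn
    simp at this
  by_cases hall : ∃ x, g x < a
  · obtain ⟨x0, hx0⟩ := hall
    have hall : ∀ y, g y < a := by
      intro y
      obtain ⟨k, _, rfl⟩ := F4 x0 y
      exact hit k x0 hx0
    obtain ⟨z, _, hz⟩ := Finset.exists_max_image univ g Finset.univ_nonempty
    have hz8 : 8 ≤ g z := by
      by_contra hc
      exact hcard 0 fun x => ⟨Nat.zero_le _, by have := hz x (mem_univ _); omega⟩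
    have hlt' : ∀ y, y.val % 2 ≠ z.val % 2 → g y < g z := by
      intro y hy
      have := hz y (mem_univ _)
      have : g y ≠ g z := fun e => hy (by rw [hg e])
      omega
    have hzN := hall z
    rcases Nat.mod_two_eq_zero_or_one z.val with h0 | h0
    · obtain ⟨y, w, hyw, hy, hw, ay, aw⟩ := F1 z
      have := hone (g z) hz8 (by omega) _
        (hmem (g z) z y hy le_rfl (hlt' y hy) (by simp [ay, h0])) _
        (hmem (g z) z w hw le_rfl (hlt' w hw) (by simp [aw, h0]))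
      exact hyw (φ.injective (Prod.mk.inj this).2)
    · obtain ⟨y, w, hyw, hy, hw, ay, aw⟩ := F2 z
      have := hone (g z) hz8 (by omega) _
        (hmem (g z) z y hy le_rfl (hlt' y hy) (by simp [ay, h0])) _
        (hmem (g z) z w hw le_rfl (hlt' w hw) (by simp [aw, h0]))
      exact hyw (φ.injective (Prod.mk.inj this).2)
  · push Not at hall
    obtain ⟨z, _, hz⟩ := Finset.exists_min_image univ g Finset.univ_nonempty
    have hzN : g z < N := by
      by_contra hc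
      exact hcard N fun x => ⟨by have := hz x (mem_univ _); omega, hlt _⟩
    have hlt' : ∀ y, y.val % 2 ≠ z.val % 2 → g z + 1 ≤ g y := by
      intro y hy
      have := hz y (mem_univ _)
      have : g y ≠ g z := fun e => hy (by rw [hg e])
      omega
    have hz8 := hall z
    rcases Nat.mod_two_eq_zero_or_one z.val with h0 | h0
    · obtain ⟨y, w, hyw, hy, hw, ay, aw⟩ := F2 z
      have := hone (g z + 1) (by omega) (by omega) _
        (hmem (g z + 1) y z (Ne.symm hy) (hlt' y hy) (by omega)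
          (by rw [G0.adj_comm]; simp only [ay, false_iff]; omega)) _
        (hmem (g z + 1) w z (Ne.symm hw) (hlt' w hw) (by omega)
          (by rw [G0.adj_comm]; simp only [aw, false_iff]; omega))
      exact hyw (φ.injective (Prod.mk.inj this).1)
    · obtain ⟨y, w, hyw, hy, hw, ay, aw⟩ := F1 z
      have := hone (g z + 1) (by omega) (by omega) _
        (hmem (g z + 1) y z (Ne.symm hy) (hlt' y hy) (by omega)
          (by rw [G0.adj_comm]; simp only [ay, true_iff]; omega)) _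
        (hmem (g z + 1) w z (Ne.symm hw) (hlt' w hw) (by omega)
          (by rw [G0.adj_comm]; simp only [aw, true_iff]; omega))
      exact hyw (φ.injective (Prod.mk.inj this).1)

end Pool.Agent.H.MP_a83c81_co
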