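import Pool.Agent.H.MP_a83c81_co.Chain

set_option autoImplicit false

namespace Pool.Agent.H.MP_a83c81_co

open Finset

noncomputable def degSeq {n : ℕ} (H : SimpleGraph (Fin n)) : Multiset ℕ :=
  Multiset.map (fun v => (H.neighborSet v).ncard) Finset.univ.val

def InP {k n : ℕ} (G : SimpleGraph (Fin k)) (H : SimpleGraph (Fin n)) : Prop :=
  ∃ H' : SimpleGraph (Fin n), degSeq H' = degSeq H ∧ Nonempty (G ↪g H')

def InD {k n : ℕ} (G : SimpleGraph (Fin k)) (H : SimpleGraph (Fin n)) : Prop :=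
  InP G H ∧ ∀ (m : ℕ) (K : SimpleGraph (Fin m)), m < n → Nonempty (K ↪g H) → ¬ InP G K

lemma degSeq_of_eq {n : ℕ} {H H' : SimpleGraph (Fin n)}
    (h : ∀ v, (H'.neighborSet v).ncard = (H.neighborSet v).ncard) : degSeq H' = degSeq H := by
  unfold degSeq; simp only [h]

lemma exists_perm {n : ℕ} (a b : Fin n → ℕ)
    (h : Multiset.map a Finset.univ.val = Multiset.map b Finset.univ.val) :
    ∃ σ : Fin n ≃ Fin n, ∀ v, a (σ v) = b v := by
  have hc : ∀ c, Fintype.card {v // b v = c} = Fintype.card {v // a v = c} := by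
    intro c
    have := congrArg (Multiset.count c) h
    rw [Multiset.count_map, Multiset.count_map] at this
    rw [Fintype.card_subtype, Fintype.card_subtype]
    simp only [eq_comm (b := c)]
    exact this.symm
  exact ⟨Equiv.ofFiberEquiv fun c => Fintype.equivOfCardEq (hc c),
    fun v => Equiv.ofFiberEquiv_map _ v⟩

lemma relabel {n : ℕ} {H H' : SimpleGraph (Fin n)} (h : degSeq H' = degSeq H) :
    ∃ H'' : SimpleGraph (Fin n), (∀ v, (H''.neighborSet v).ncard = (H.neighborSet v).ncard) ∧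
      Nonempty (H' ≃g H'') := by
  obtain ⟨σ, hσ⟩ := exists_perm _ _ h
  refine ⟨H'.comap σ, fun v => ?_, ⟨(SimpleGraph.Iso.comap σ H').symm⟩⟩
  rw [← hσ v]
  have : H'.neighborSet (σ v) = σ '' (H'.comap σ).neighborSet v := by
    ext w
    simp only [SimpleGraph.mem_neighborSet, Set.mem_image, SimpleGraph.comap_adj]
    constructor
    · intro hw; exact ⟨σ.symm w, by simpa using hw, by simp⟩
    · rintro ⟨x, hx, rfl⟩; exact hx
  rw [this, Set.ncard_image_of_injective _ σ.injective]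

lemma exists_min {k : ℕ} (G : SimpleGraph (Fin k)) : ∀ (n : ℕ) (H : SimpleGraph (Fin n)),
    InP G H → ∃ (m : ℕ) (K : SimpleGraph (Fin m)), Nonempty (K ↪g H) ∧ InD G K := by
  intro n
  induction n using Nat.strong_induction_on with
  | _ n ih =>
    intro H hH
    by_cases h : ∃ (m : ℕ) (K : SimpleGraph (Fin m)), m < n ∧ Nonempty (K ↪g H) ∧ InP G K
    · obtain ⟨m, K, hm, ⟨e⟩, hK⟩ := h
      obtain ⟨m', K', ⟨e'⟩, hK'⟩ := ih m hm K hK
      exact ⟨m', K', ⟨e.comp e'⟩, hK'⟩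
    · exact ⟨n, H, ⟨SimpleGraph.Embedding.refl⟩, hH,
        fun m K hm he hK => h ⟨m, K, hm, he, hK⟩⟩

lemma deg_swap {n : ℕ} (H H' : SimpleGraph (Fin n)) (v p q : Fin n)
    (h1 : H'.Adj v p ↔ H.Adj v q) (h2 : H'.Adj v q ↔ H.Adj v p)
    (h3 : ∀ w, w ≠ p → w ≠ q → (H'.Adj v w ↔ H.Adj v w)) :
    (H'.neighborSet v).ncard = (H.neighborSet v).ncard := by
  have : H'.neighborSet v = (Equiv.swap p q) '' H.neighborSet v := by
    ext w
    rw [Equiv.image_eq_preimage_symm]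
    simp only [SimpleGraph.mem_neighborSet, Set.mem_preimage, Equiv.symm_swap]
    by_cases a : w = p
    · subst a; rw [Equiv.swap_apply_left]; exact h1
    by_cases b : w = q
    · subst b; rw [Equiv.swap_apply_right]; exact h2
    rw [Equiv.swap_apply_of_ne_of_ne a b]; exact h3 w a b
  rw [this, Set.ncard_image_of_injective _ (Equiv.swap p q).injective]

lemma MM (N r c : ℕ) (hN : N % 2 = 0) (h8 : 10 ≤ N) (hr : r % 2 = 1) (hc : c % 2 = 0)
    (h1 : ¬ (7 ≤ r ∧ c ≤ N ∧ c = r + 1)) (h2 : ¬ (8 ≤ c ∧ r < N ∧ r = c + 1))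
    (h3 : ¬ (r = 7 ∧ c = N)) : M' N r c ↔ M N r c := by
  unfold M M'
  by_cases a : r < 8 ∧ c < 8
  · simp only [a, and_self, true_and, not_true_eq_false, false_and]
  by_cases b : N ≤ r ∧ N ≤ c
  · simp only [b, and_self, true_and, not_true_eq_false, false_and, and_false]
  have : ((r = 7 ∧ c = N) ∨ c < r) ↔ (c = r + 1 ∨ c + 1 < r) := by omega
  rw [this]

lemma RR (N x y : ℕ) (hN : N % 2 = 0) (h8 : 10 ≤ N)
    (h1 : ¬ (7 ≤ x ∧ y ≤ N ∧ y = x + 1)) (h2 : ¬ (7 ≤ y ∧ x ≤ N ∧ x = y + 1))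
    (h3 : ¬ (x = 7 ∧ y = N)) (h4 : ¬ (y = 7 ∧ x = N)) : R (M' N) x y ↔ R (M N) x y := by
  unfold R
  rcases Nat.mod_two_eq_zero_or_one x with a | a <;>
    rcases Nat.mod_two_eq_zero_or_one y with b | b
  · simp [a, b]
  · rw [MM N y x hN h8 b a (by omega) (by omega) (by omega)]; simp [a, b]
  · rw [MM N x y hN h8 a b (by omega) (by omega) (by omega)]; simp [a, b]
  · simp [a, b]

lemma Roe (m : ℕ → ℕ → Prop) (x y : ℕ) (a : x % 2 = 1) (b : y % 2 = 0) : R m x y ↔ m x y := by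
  have : x ≠ y := by omega
  simp [R, a, b, this]

lemma Reo (m : ℕ → ℕ → Prop) (x y : ℕ) (a : x % 2 = 0) (b : y % 2 = 1) : R m x y ↔ m y x := by
  have : x ≠ y := by omega
  simp [R, a, b, this]

lemma switch_deg (N : ℕ) (hN : N % 2 = 0) (h8 : 10 ≤ N) (v : Fin (N + 8)) :
    ((gr (N + 8) (M' N)).neighborSet v).ncard = ((gr (N + 8) (M N)).neighborSet v).ncard := by
  have adj : ∀ (m : ℕ → ℕ → Prop) (x y : Fin (N + 8)), (gr (N + 8) m).Adj x y ↔ R m x y :=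
    fun _ _ _ => Iff.rfl
  by_cases hv : v.val < 7 ∨ N < v.val
  · apply deg_swap _ _ v v v (by simp) (by simp)
    intro w _ _
    rw [adj, adj]; exact RR N _ _ hN h8 (by omega) (by omega) (by omega) (by omega)
  by_cases h7 : v.val = 7
  · apply deg_swap _ _ v ⟨N, by omega⟩ ⟨8, by omega⟩
    · rw [adj, adj, Roe _ _ _ (by omega) hN, Roe _ _ _ (by omega) (by norm_num)]
      unfold M M'; dsimp only; omega
    · rw [adj, adj, Roe _ _ _ (by omega) (by norm_num), Roe _ _ _ (by omega) hN]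
      unfold M M'; dsimp only; omega
    · intro w a b
      rw [Ne, Fin.ext_iff] at a b
      simp only at a b
      rw [adj, adj]; exact RR N _ _ hN h8 (by omega) (by omega) (by omega) (by omega)
  by_cases hNv : v.val = N
  · apply deg_swap _ _ v ⟨N - 1, by omega⟩ ⟨7, by omega⟩
    · rw [adj, adj, Reo _ _ _ (by omega) (by simp only; omega), Reo _ _ _ (by omega) (by norm_num)]
      unfold M M'; dsimp only; omega
    · rw [adj, adj, Reo _ _ _ (by omega) (by norm_num), Reo _ _ _ (by omega) (by simp only; omega)]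
      unfold M M'; dsimp only; omega
    · intro w a b
      rw [Ne, Fin.ext_iff] at a b
      simp only at a b
      rw [adj, adj]; exact RR N _ _ hN h8 (by omega) (by omega) (by omega) (by omega)
  apply deg_swap _ _ v ⟨v.val - 1, by omega⟩ ⟨v.val + 1, by omega⟩
  · rcases Nat.mod_two_eq_zero_or_one v.val with a | a
    · rw [adj, adj, Reo _ _ _ a (by simp only; omega), Reo _ _ _ a (by simp only; omega)]
      unfold M M'; dsimp only; omega
    · rw [adj, adj, Roe _ _ _ a (by simp only; omega), Roe _ _ _ a (by simp only; omega)]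
      unfold M M'; dsimp only; omega
  · rcases Nat.mod_two_eq_zero_or_one v.val with a | a
    · rw [adj, adj, Reo _ _ _ a (by simp only; omega), Reo _ _ _ a (by simp only; omega)]
      unfold M M'; dsimp only; omega
    · rw [adj, adj, Roe _ _ _ a (by simp only; omega), Roe _ _ _ a (by simp only; omega)]
      unfold M M'; dsimp only; omega
  · intro w a b
    rw [Ne, Fin.ext_iff] at a b
    simp only at a b
    rw [adj, adj]; exact RR N _ _ hN h8 (by omega) (by omega) (by omega) (by omega)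

def up (N x : ℕ) : ℕ := if x < 8 then x else x + N - 8

lemma Mup (N r c : ℕ) (h8 : 10 ≤ N) (hr : r % 2 = 1) (hc : c % 2 = 0) :
    M' N (up N r) (up N c) ↔ M 8 r c := by
  unfold M M' up
  split_ifs <;> omega

lemma emb0 (N : ℕ) (hN : N % 2 = 0) (h8 : 10 ≤ N) : Nonempty (G0 ↪g gr (N + 8) (M' N)) := by
  have hup : ∀ x, up N x % 2 = x % 2 := by intro x; unfold up; split_ifs <;> omega
  have hinj : ∀ x y, up N x = up N y ↔ x = y := by intro x y; unfold up; split_ifs <;> omega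
  refine ⟨⟨⟨fun x => ⟨up N x, by unfold up; split_ifs <;> omega⟩, ?_⟩, ?_⟩⟩
  · intro x y h
    exact Fin.ext ((hinj _ _).1 (Fin.mk.inj h))
  · intro x y
    show R (M' N) (up N x) (up N y) ↔ R (M 8) x y
    rcases Nat.mod_two_eq_zero_or_one x.val with a | a <;>
      rcases Nat.mod_two_eq_zero_or_one y.val with b | b
    · simp [R, a, b, hup]
    · rw [Reo _ _ _ (by rw [hup, a]) (by rw [hup, b]), Reo _ _ _ a b]; exact Mup N _ _ h8 b a
    · rw [Roe _ _ _ (by rw [hup, a]) (by rw [hup, b]), Roe _ _ _ a b]; exact Mup N _ _ h8 a b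
    · simp [R, a, b, hup, hinj]

theorem big (L : ℕ) : ∃ n, L ≤ n ∧ ∃ H : SimpleGraph (Fin n), InD G0 H := by
  obtain ⟨N, hN, h8, hL⟩ : ∃ N, N % 2 = 0 ∧ 10 ≤ N ∧ L + 8 ≤ N := ⟨2 * L + 10, by omega⟩
  have hP : InP G0 (gr (N + 8) (M N)) :=
    ⟨gr (N + 8) (M' N), degSeq_of_eq (switch_deg N hN h8), emb0 N hN h8⟩
  obtain ⟨m, K, ⟨e⟩, hK⟩ := exists_min G0 _ _ hP
  refine ⟨m, ?_, K, hK⟩
  obtain ⟨K', hd, ⟨φ⟩⟩ := hK.1
  obtain ⟨K'', hd', ⟨ψ⟩⟩ := relabel hd
  have hall : ∀ a ∈ Finset.Ico 8 N, ∃ v, (e v).val = a := by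
    intro a ha
    rw [Finset.mem_Ico] at ha
    by_contra hc
    push Not at hc
    exact core N a hN ha.1 ha.2 K K'' hd' (fun v => (e v).val)
      (Fin.val_injective.comp e.injective) (fun v => (e v).2) hc
      (fun u v => e.map_adj_iff.symm) (ψ.toEmbedding.comp φ)
  have : (Finset.Ico 8 N).card ≤ (univ : Finset (Fin m)).card :=
    Finset.card_le_card_of_surjOn (fun v => (e v).val) (fun a ha => by
      obtain ⟨v, hv⟩ := hall a (by simpa using ha)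
      exact ⟨v, by simp, hv⟩)
  simp at this
  omega

lemma replace {m n : ℕ} {F F' : SimpleGraph (Fin m)} {H : SimpleGraph (Fin n)} (ι : F ↪g H)
    (h : ∀ v, (F'.neighborSet v).ncard = (F.neighborSet v).ncard) :
    ∃ H' : SimpleGraph (Fin n), (∀ v, (H'.neighborSet v).ncard = (H.neighborSet v).ncard) ∧
      Nonempty (F' ↪g H') := by
  let H' : SimpleGraph (Fin n) :=
    { Adj := fun u v => (∃ x y, ι x = u ∧ ι y = v ∧ F'.Adj x y) ∨
        (H.Adj u v ∧ ¬ (u ∈ Set.range ι ∧ v ∈ Set.range ι))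
      symm := ⟨by
        rintro u v (⟨x, y, a, b, c⟩ | ⟨a, b⟩)
        · exact Or.inl ⟨y, x, b, a, c.symm⟩
        · exact Or.inr ⟨a.symm, fun h => b h.symm⟩⟩
      loopless := ⟨by
        rintro u (⟨x, y, a, b, c⟩ | ⟨a, b⟩)
        · exact c.ne (ι.injective (a.trans b.symm))
        · exact a.ne rfl⟩ }
  have hin : ∀ x y, H'.Adj (ι x) (ι y) ↔ F'.Adj x y := by
    intro x y
    constructor
    · rintro (⟨x', y', a, b, c⟩ | ⟨a, b⟩)
      · rwa [ι.injective a, ι.injective b] at c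
      · exact absurd ⟨⟨x, rfl⟩, ⟨y, rfl⟩⟩ b
    · intro c; exact Or.inl ⟨x, y, rfl, rfl, c⟩
  have hout : ∀ u v, ¬ (u ∈ Set.range ι ∧ v ∈ Set.range ι) → (H'.Adj u v ↔ H.Adj u v) := by
    intro u v huv
    constructor
    · rintro (⟨x', y', a, b, c⟩ | ⟨a, b⟩)
      · exact absurd ⟨⟨x', a⟩, ⟨y', b⟩⟩ huv
      · exact a
    · intro c; exact Or.inr ⟨c, huv⟩
  have gen : ∀ (A : SimpleGraph (Fin m)) (B : SimpleGraph (Fin n)),
      (∀ x y, B.Adj (ι x) (ι y) ↔ A.Adj x y) →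
      (∀ u v, ¬ (u ∈ Set.range ι ∧ v ∈ Set.range ι) → (B.Adj u v ↔ H.Adj u v)) → ∀ x,
      (B.neighborSet (ι x)).ncard
        = (A.neighborSet x).ncard + (H.neighborSet (ι x) \ Set.range ι).ncard := by
    intro A B h1 h2 x
    have : B.neighborSet (ι x) = ι '' A.neighborSet x ∪ (H.neighborSet (ι x) \ Set.range ι) := by
      ext w
      simp only [SimpleGraph.mem_neighborSet, Set.mem_union, Set.mem_image, Set.mem_sdiff]
      by_cases hw : w ∈ Set.range ι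
      · obtain ⟨y, rfl⟩ := hw
        rw [h1]
        constructor
        · intro c; exact Or.inl ⟨y, c, rfl⟩
        · rintro (⟨z, c, e⟩ | ⟨_, c⟩)
          · rwa [← ι.injective e]
          · exact absurd ⟨y, rfl⟩ c
      · rw [h2 _ _ fun c => hw c.2]
        constructor
        · intro c; exact Or.inr ⟨c, hw⟩
        · rintro (⟨z, _, e⟩ | ⟨c, _⟩)
          · exact absurd ⟨z, e⟩ hw
          · exact c
    rw [this, Set.ncard_union_eq, Set.ncard_image_of_injective _ ι.injective]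
    rw [Set.disjoint_left]
    rintro w ⟨z, _, e⟩ ⟨_, c⟩
    exact c ⟨z, e⟩
  refine ⟨H', fun v => ?_, ⟨⟨ι.toEmbedding, fun {x y} => hin x y⟩⟩⟩
  by_cases hv : v ∈ Set.range ι
  · obtain ⟨x, rfl⟩ := hv
    rw [gen F' H' hin hout x, gen F H (fun x y => ι.map_adj_iff) (fun _ _ _ => Iff.rfl) x, h]
  · congr 1
    ext w
    exact hout v w fun c => hv c.1

lemma inP_of_emb {k m n : ℕ} {G : SimpleGraph (Fin k)} {F : SimpleGraph (Fin m)}
    {H : SimpleGraph (Fin n)} (ι : F ↪g H) (h : InP G F) : InP G H := by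
  obtain ⟨F', hd, ⟨φ⟩⟩ := h
  obtain ⟨F'', hd', ⟨ψ⟩⟩ := relabel hd
  obtain ⟨H', h1, ⟨χ⟩⟩ := replace ι hd'
  exact ⟨H', degSeq_of_eq h1, ⟨χ.comp (ψ.toEmbedding.comp φ)⟩⟩

def Free (𝓕 : Set (Σ n : ℕ, SimpleGraph (Fin n))) {n : ℕ} (H : SimpleGraph (Fin n)) : Prop :=
  ∀ F ∈ 𝓕, IsEmpty (F.2 ↪g H)

def DSF (𝓕 : Set (Σ n : ℕ, SimpleGraph (Fin n))) : Prop :=
  𝓕.Nonempty ∧ ∀ (n : ℕ) (H H' : SimpleGraph (Fin n)), degSeq H = degSeq H' →
    Free 𝓕 H → Free 𝓕 H'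

lemma le_of_emb {m n : ℕ} {F : SimpleGraph (Fin m)} {H : SimpleGraph (Fin n)} (ι : F ↪g H) :
    m ≤ n := by
  simpa using Fintype.card_le_of_injective ι ι.injective

lemma iso_of_emb {m n : ℕ} {F : SimpleGraph (Fin m)} {H : SimpleGraph (Fin n)} (ι : F ↪g H)
    (h : n ≤ m) : Nonempty (F ≃g H) := by
  have hb : Function.Bijective ι :=
    (Fintype.bijective_iff_injective_and_card ι).2
      ⟨ι.injective, by simpa using le_antisymm (le_of_emb ι) h⟩
  exact ⟨⟨Equiv.ofBijective ι hb, fun {a b} => ι.map_adj_iff⟩⟩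

theorem dsf_D {k : ℕ} (G : SimpleGraph (Fin k)) :
    DSF {F | InD G F.2} ∧ ∀ 𝓕 ⊆ {F : Σ n : ℕ, SimpleGraph (Fin n) | InD G F.2}, DSF 𝓕 →
      ∀ F ∈ {F : Σ n : ℕ, SimpleGraph (Fin n) | InD G F.2}, ∃ F' ∈ 𝓕, Nonempty (F.2 ≃g F'.2) := by
  constructor
  · constructor
    · obtain ⟨m, K, _, hK⟩ := exists_min G k G ⟨G, rfl, ⟨SimpleGraph.Embedding.refl⟩⟩
      exact ⟨⟨m, K⟩, hK⟩
    · intro n H H' hd hfree F hF
      refine ⟨fun ι => ?_⟩
      obtain ⟨H'', h1, h2⟩ := inP_of_emb ι hF.1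
      obtain ⟨m, K, ⟨e⟩, hK⟩ := exists_min G n H ⟨H'', h1.trans hd.symm, h2⟩
      exact (hfree ⟨m, K⟩ hK).false e
  · intro 𝓕 hsub hD
    have nf : ∀ (n : ℕ) (H H' : SimpleGraph (Fin n)), degSeq H = degSeq H' →
        (∃ F ∈ 𝓕, Nonempty (F.2 ↪g H')) → ∃ F ∈ 𝓕, Nonempty (F.2 ↪g H) := by
      intro n H H' hd ⟨F, hF, ⟨e⟩⟩
      by_contra hc
      have : Free 𝓕 H := fun F hF => ⟨fun e => hc ⟨F, hF, ⟨e⟩⟩⟩
      exact (hD.2 n H H' hd this F hF).false e
    obtain ⟨F0, hF0, hmin⟩ := (measure fun F : Σ n : ℕ, SimpleGraph (Fin n) => F.1).wf.has_min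
      𝓕 hD.1
    have hG : ∃ F ∈ 𝓕, Nonempty (F.2 ↪g G) := by
      obtain ⟨F', hd, ⟨φ⟩⟩ := (hsub hF0).1
      obtain ⟨F1, hF1, ⟨e⟩⟩ := nf _ F' F0.2 hd ⟨F0, hF0, ⟨SimpleGraph.Embedding.refl⟩⟩
      have h1 : F0.1 ≤ F1.1 := not_lt.1 (hmin F1 hF1)
      obtain ⟨i⟩ := iso_of_emb e h1
      have e2 : G ↪g F1.2 := i.symm.toEmbedding.comp φ
      have h2 : F1.1 ≤ k := by
        by_contra hc
        exact (hsub hF1).2 k G (not_le.1 hc) ⟨e2⟩ ⟨G, rfl, ⟨SimpleGraph.Embedding.refl⟩⟩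
      obtain ⟨j⟩ := iso_of_emb e2 h2
      exact ⟨F1, hF1, ⟨j.symm.toEmbedding⟩⟩
    intro F hF
    obtain ⟨F', hd, ⟨φ⟩⟩ := hF.1
    obtain ⟨F1, hF1, ⟨e1⟩⟩ := hG
    obtain ⟨F2, hF2, ⟨e⟩⟩ := nf _ F.2 F' hd.symm ⟨F1, hF1, ⟨φ.comp e1⟩⟩
    have h2 : F.1 ≤ F2.1 := by
      by_contra hc
      exact hF.2 _ F2.2 (not_le.1 hc) ⟨e⟩ (hsub hF2).1
    obtain ⟨j⟩ := iso_of_emb e h2
    exact ⟨F2, hF2, ⟨j.symm⟩⟩

end Pool.Agent.H.MP_a83c81_co
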